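import Pool.Agent.Helper12.MA.StD
import Pool.Agent.Helper12.MA.Lib

/-!
# Project MA, module SUX: the second alternative of SUM is impossible
-/

set_option autoImplicit false

namespace Pool.Agent.Helper10.MA

open Pool.Agent.Helper12.MA
open Pool.Agent.Helper51.AJ (IsMinor Planar Apex ExMinor Con Tch)
open Pool.Agent.Helper12.NK (rst Kc add cnt Pcy IsFace Cof plus)

variable {V : Type}

private lemma card4 (a b c d : V) : ({a, b, c, d} : Set V).ncard ≤ 4 := by
  refine (Set.ncard_insert_le _ _).trans ?_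
  have h1 := Set.ncard_insert_le b ({c, d} : Set V)
  have h2 := Set.ncard_insert_le c ({d} : Set V)
  have h3 : ({d} : Set V).ncard = 1 := Set.ncard_singleton d
  omega

/-- five elements in a set of at least five elements are different -/
private lemma five {S : Set V} {a b c d e : V} (hS : ∀ t, t ∈ S → t = a ∨ t = b ∨ t = c ∨ t = d ∨ t = e)
    (h5 : 5 ≤ S.ncard) : (a ≠ b ∧ a ≠ c ∧ a ≠ d ∧ a ≠ e) ∧ (b ≠ c ∧ b ≠ d ∧ b ≠ e) ∧ (c ≠ d ∧ c ≠ e) ∧ d ≠ e := by
  have key : ∀ p q r s : V, S ⊆ {p, q, r, s} → False := by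
    intro p q r s h
    have h1 := Set.ncard_le_ncard h (Set.toFinite _)
    have h2 := card4 p q r s
    omega
  have sub : ∀ p q r s : V, (∀ t, (t = a ∨ t = b ∨ t = c ∨ t = d ∨ t = e) → t = p ∨ t = q ∨ t = r ∨ t = s) →
      False := fun p q r s h => key p q r s fun t ht => by
    simpa only [Set.mem_insert_iff, Set.mem_singleton_iff] using h t (hS t ht)
  refine ⟨⟨?_, ?_, ?_, ?_⟩, ⟨?_, ?_, ?_⟩, ⟨?_, ?_⟩, ?_⟩ <;> rintro rfl
  · exact sub a c d e fun t h => by tauto
  · exact sub a b d e fun t h => by tauto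
  · exact sub a b c e fun t h => by tauto
  · exact sub a b c d fun t h => by tauto
  · exact sub a b d e fun t h => by tauto
  · exact sub a b c e fun t h => by tauto
  · exact sub a b c d fun t h => by tauto
  · exact sub a b c e fun t h => by tauto
  · exact sub a b c d fun t h => by tauto
  · exact sub a b c d fun t h => by tauto

section

variable {G : SimpleGraph V} {Q L R : Set V} {u v : V}

private lemma cases3 (h : Sep G Q u v L R) (t : V) : t ∈ Q ∨ t ∈ L ∨ t ∈ R := by
  by_cases ht : t ∈ Q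
  · exact Or.inl ht
  · have : t ∈ L ∪ R := by
      rw [h.cov]
      exact ht
    exact Or.inr this

private lemma nLQ (h : Sep G Q u v L R) {t : V} (ht : t ∈ L) : t ∉ Q := by
  have : t ∈ L ∪ R := Or.inl ht
  rw [h.cov] at this
  exact this

private lemma nRQ (h : Sep G Q u v L R) {t : V} (ht : t ∈ R) : t ∉ Q := by
  have : t ∈ L ∪ R := Or.inr ht
  rw [h.cov] at this
  exact this

private lemma nLR (h : Sep G Q u v L R) {t : V} (ht : t ∈ L) : t ∉ R := fun h' =>
  Set.disjoint_left.1 h.dis ht h'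

/-- common neighbours are in `Q` -/
private lemma common (h : Sep G Q u v L R) {t : V} (h1 : G.Adj u t) (h2 : G.Adj v t) : t ∈ Q := by
  rcases cases3 h t with ht | ht | ht
  · exact ht
  · exact absurd (h.only t ht v h.yR h2.symm).1 (G.ne_of_adj h1).symm
  · exact absurd (h.only u h.xL t ht h1).2 (G.ne_of_adj h2).symm

end

variable [Finite V]

/-- a neighbour of `u` in `L`, if `L` is not `{u}`; and every element of `Q` has a neighbour in `L` -/
private lemma nbL (hs : StSPB) {G : SimpleGraph V} (hb : Bh G) {Q L R : Set V} {u v : V}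
    (h : Sep G Q u v L R) (hL : L ≠ {u}) {w : V} (hw : w = u ∨ w ∈ Q) : ∃ t ∈ L, t ≠ u ∧ G.Adj w t := by
  have h1 := (hs V G Q L R u v hb h).2.2.2.1 hL
  have h2 : w ∈ Nb G (L \ {u}) := by
    rw [h1]
    rcases hw with rfl | hw
    · exact Set.mem_insert _ _
    · exact Set.mem_insert_of_mem _ hw
  obtain ⟨_, t, ht, hadj⟩ := h2
  exact ⟨t, ht.1, ht.2, hadj.symm⟩

private lemma small (hB : StBAS) {G : SimpleGraph V} (hb : Bh G) {Q A : Set V} {x e : V} (hQ : Q.ncard = 4)
    (hx : x ∈ Q) (hsub : Nb G A ⊆ insert e (Q \ {x})) (hxA : x ∉ A) (hxe : x ≠ e) : A = ∅ := by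
  by_contra hne
  have hcard : (insert e (Q \ {x})).ncard ≤ 4 := by
    have h1 := Set.ncard_insert_le e (Q \ {x})
    have h2 := Set.ncard_sdiff_singleton_add_one hx (Set.toFinite _)
    omega
  have h4 : (Nb G A).ncard ≤ 4 := (Set.ncard_le_ncard hsub (Set.toFinite _)).trans hcard
  have hu := (hB V G hb).2.2.2.2.2.1 A (Set.nonempty_iff_ne_empty.2 hne) h4
  have : x ∈ A ∪ Nb G A := by
    rw [hu]
    exact Set.mem_univ _
  rcases this with h | h
  · exact hxA h
  · rcases hsub h with h' | h'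
    · exact hxe h'
    · exact h'.2 rfl

private lemma core (hB : StBAS) (hs : StSPB) {G : SimpleGraph V} (hb : Bh G) {x x' y l c a e₀ e₁ e₂ : V}
    {Q L R : Set V} (h : Sep G Q x' l L R) (hR : R ≠ {l})
    (nx : ∀ t, G.Adj x t → t = y ∨ t = x' ∨ t = l ∨ t = c ∨ t = a)
    (nx' : ∀ t, G.Adj x' t → t = x ∨ t = l ∨ t = e₀ ∨ t = e₁ ∨ t = e₂)
    (nl : ∀ t, G.Adj l t → t = x ∨ t = x' ∨ t = a ∨ t = e₀ ∨ t = e₁ ∨ t = e₂)
    (hxQ : x ∈ Q) (he0 : e₀ ∈ L) (he1 : e₁ ∈ Q) (he2 : e₂ ∈ Q) (hne0 : e₀ ≠ x')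
    (hc : c = e₀ ∨ c = e₁ ∨ c = e₂) (hbad : ∃ b, (b = e₁ ∨ b = e₂) ∧ ¬ G.Adj a b) (hxa : x ≠ a)
    (hal : a ≠ l) :
    G.Adj e₀ x ∧ G.Adj e₀ e₁ ∧ G.Adj e₀ e₂ := by
  have h5 := (hB V G hb).2.2.2.1
  have hx0 : x ≠ e₀ := fun hh => nLQ h he0 (hh ▸ hxQ)
  have hsym := (hs V G Q L R x' l hb h).2.2.1
  -- `a ∈ R`
  have haR : a ∈ R := by
    obtain ⟨t, htR, htl, hadj⟩ := nbL hs hb hsym hR (Or.inl rfl)
    rcases nl t hadj with rfl | rfl | rfl | rfl | rfl | rfl
    · exact absurd hxQ (nRQ h htR)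
    · exact absurd htR (nLR h h.xL)
    · exact htR
    · exact absurd htR (nLR h he0)
    · exact absurd he1 (nRQ h htR)
    · exact absurd he2 (nRQ h htR)
  by_cases hy : y ∈ R
  · -- `L = {x', e₀}`
    have hA : L \ {x', e₀} = ∅ := by
      refine small hB hb h.card hxQ (e := e₀) ?_ (fun hh => nLQ h hh.1 hxQ) hx0
      rintro w ⟨hw, t, ht, hadj⟩
      have ht1 : t ≠ x' := fun hh => ht.2 (Or.inl hh)
      have ht2 : t ≠ e₀ := fun hh => ht.2 (Or.inr hh)
      rcases cases3 h w with hwQ | hwL | hwR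
      · refine Or.inr ⟨hwQ, ?_⟩
        rintro rfl
        rcases nx t hadj.symm with rfl | rfl | rfl | rfl | rfl
        · exact nLR h ht.1 hy
        · exact ht1 rfl
        · exact nLR h ht.1 h.yR
        · rcases hc with rfl | rfl | rfl
          · exact ht2 rfl
          · exact nLQ h ht.1 he1
          · exact nLQ h ht.1 he2
        · exact nLR h ht.1 haR
      · by_cases hw0 : w = e₀
        · exact Or.inl hw0
        · have hwx : w = x' := by
            by_contra hwx
            exact hw ⟨hwL, fun hh => by rcases hh with hh | hh; exacts [hwx hh, hw0 hh]⟩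
          subst hwx
          exfalso
          rcases nx' t hadj.symm with rfl | rfl | rfl | rfl | rfl
          · exact nLQ h ht.1 hxQ
          · exact nLR h ht.1 h.yR
          · exact ht2 rfl
          · exact nLQ h ht.1 he1
          · exact nLQ h ht.1 he2
      · exact absurd (h.only t ht.1 w hwR hadj).1 ht1
    have hsub : {t | G.Adj e₀ t} ⊆ insert x' Q := by
      intro t ht
      have hadj : G.Adj e₀ t := ht
      rcases cases3 h t with htQ | htL | htR
      · exact Set.mem_insert_of_mem _ htQ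
      · by_cases h1 : t = x'
        · exact Or.inl h1
        · exfalso
          have h2 : t ∈ L \ {x', e₀} := ⟨htL, fun hh => by
            rcases hh with hh | hh
            · exact h1 hh
            · exact G.ne_of_adj hadj hh.symm⟩
          rw [hA] at h2
          exact h2
      · exact absurd (h.only e₀ he0 t htR hadj).1 hne0
    have hcard : (insert x' Q).ncard ≤ 5 := by
      have := Set.ncard_insert_le x' Q
      have hq := h.card
      omega
    have heq : {t | G.Adj e₀ t} = insert x' Q :=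
      Set.eq_of_subset_of_ncard_le hsub (hcard.trans (h5 e₀)) (Set.toFinite _)
    have hm : ∀ t ∈ Q, G.Adj e₀ t := fun t ht => by
      have : t ∈ {t | G.Adj e₀ t} := by
        rw [heq]
        exact Set.mem_insert_of_mem _ ht
      exact this
    exact ⟨hm x hxQ, hm e₁ he1, hm e₂ he2⟩
  · -- impossible
    exfalso
    have hA : R \ {l, a} = ∅ := by
      refine small hB hb h.card hxQ (e := a) ?_ (fun hh => nRQ h hh.1 hxQ) hxa
      rintro w ⟨hw, t, ht, hadj⟩
      have ht1 : t ≠ l := fun hh => ht.2 (Or.inl hh)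
      have ht2 : t ≠ a := fun hh => ht.2 (Or.inr hh)
      rcases cases3 h w with hwQ | hwL | hwR
      · refine Or.inr ⟨hwQ, ?_⟩
        rintro rfl
        rcases nx t hadj.symm with rfl | rfl | rfl | rfl | rfl
        · exact hy ht.1
        · exact nLR h h.xL ht.1
        · exact ht1 rfl
        · rcases hc with rfl | rfl | rfl
          · exact nLR h he0 ht.1
          · exact nRQ h ht.1 he1
          · exact nRQ h ht.1 he2
        · exact ht2 rfl
      · exact absurd (h.only w hwL t ht.1 hadj.symm).2 ht1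
      · by_cases hw0 : w = a
        · exact Or.inl hw0
        · have hwx : w = l := by
            by_contra hwx
            exact hw ⟨hwR, fun hh => by rcases hh with hh | hh; exacts [hwx hh, hw0 hh]⟩
          subst hwx
          exfalso
          rcases nl t hadj.symm with rfl | rfl | rfl | rfl | rfl | rfl
          · exact nRQ h ht.1 hxQ
          · exact nLR h h.xL ht.1
          · exact ht2 rfl
          · exact nLR h he0 ht.1
          · exact nRQ h ht.1 he1
          · exact nRQ h ht.1 he2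
    obtain ⟨b, hb12, hab⟩ := hbad
    have hbQ : b ∈ Q := by rcases hb12 with rfl | rfl <;> assumption
    have hsub : {t | G.Adj a t} ⊆ insert l (Q \ {b}) := by
      intro t ht
      have hadj : G.Adj a t := ht
      rcases cases3 h t with htQ | htL | htR
      · refine Or.inr ⟨htQ, ?_⟩
        rintro rfl
        exact hab hadj
      · exact absurd (h.only t htL a haR hadj.symm).2 hal
      · by_cases h1 : t = l
        · exact Or.inl h1
        · exfalso
          have h2 : t ∈ R \ {l, a} := ⟨htR, fun hh => by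
            rcases hh with hh | hh
            · exact h1 hh
            · exact G.ne_of_adj hadj hh.symm⟩
          rw [hA] at h2
          exact h2
    have h1 := Set.ncard_le_ncard hsub (Set.toFinite _)
    have h2 := Set.ncard_insert_le l (Q \ {b})
    have h3 := Set.ncard_sdiff_singleton_add_one hbQ (Set.toFinite _)
    have h4 := h.card
    have h6 := h5 a
    omega

/-- SUX. -/
theorem hSUX : StBAS → StSPB → StSUX := by
  intro hB hs V _ G x x' y l c a b₁ b₂ hb hng nx nx' hla nl hab1 hab2 hne1 hne2 hy1 hy2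
  have h5 := (hB V G hb).2.2.2.1
  have exnt : ∀ u v, G.Adj u v → ∃ Q L R, Sep G Q u v L R ∧ L ≠ {u} ∧ R ≠ {v} := by
    intro u v huv
    by_contra hcon
    refine hng u v huv fun Q L R hsep => ?_
    by_contra h2
    push Not at h2
    exact hcon ⟨Q, L, R, hsep, h2.1, h2.2⟩
  obtain ⟨⟨d1, d2, d3, d4⟩, ⟨d5, d6, d7⟩, ⟨d8, d9⟩, d10⟩ :=
    five (S := {t | G.Adj x t}) (fun t ht => (nx t).1 ht) (h5 x)
  obtain ⟨⟨f1, f2, f3, f4⟩, ⟨f5, f6, f7⟩, ⟨f8, f9⟩, f10⟩ :=
    five (S := {t | G.Adj x' t}) (fun t ht => (nx' t).1 ht) (h5 x')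
  have axy : G.Adj x y := (nx y).2 (Or.inl rfl)
  have axx : G.Adj x x' := (nx x').2 (Or.inr (Or.inl rfl))
  have axl : G.Adj x l := (nx l).2 (Or.inr (Or.inr (Or.inl rfl)))
  have axc : G.Adj x c := (nx c).2 (Or.inr (Or.inr (Or.inr (Or.inl rfl))))
  have axa : G.Adj x a := (nx a).2 (Or.inr (Or.inr (Or.inr (Or.inr rfl))))
  have bl : G.Adj x' l := (nx' l).2 (Or.inr (Or.inl rfl))
  have bc : G.Adj x' c := (nx' c).2 (Or.inr (Or.inr (Or.inl rfl)))
  have b1 : G.Adj x' b₁ := (nx' b₁).2 (Or.inr (Or.inr (Or.inr (Or.inl rfl))))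
  have b2 : G.Adj x' b₂ := (nx' b₂).2 (Or.inr (Or.inr (Or.inr (Or.inr rfl))))
  -- at most one of `c, b₁, b₂` is not adjacent to `l`
  have key : ∀ p q : V, (∀ t, G.Adj l t → t = x ∨ t = x' ∨ t = a ∨ t = p ∨ t = q) → G.Adj l p ∧ G.Adj l q := by
    intro p q h
    have hsub : {t | G.Adj l t} ⊆ {x, x', a, p, q} := by
      intro t ht
      simpa only [Set.mem_insert_iff, Set.mem_singleton_iff] using h t ht
    have hc5 : ({x, x', a, p, q} : Set V).ncard ≤ 5 := by
      refine (Set.ncard_insert_le _ _).trans ?_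
      have := card4 x' a p q
      omega
    have heq := Set.eq_of_subset_of_ncard_le hsub (hc5.trans (h5 l)) (Set.toFinite _)
    constructor
    · have : p ∈ {t | G.Adj l t} := by
        rw [heq]
        simp
      exact this
    · have : q ∈ {t | G.Adj l t} := by
        rw [heq]
        simp
      exact this
  obtain ⟨Q, L, R, h, hL, hR⟩ := exnt x' l bl
  have hxQ : x ∈ Q := common h axx.symm axl.symm
  obtain ⟨t, htL, htx, hadj⟩ := nbL hs hb h hL (Or.inl rfl)
  have hnl : ¬ G.Adj l t := fun hh => nLQ h htL (common h hadj hh)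
  rcases (nx' t).1 hadj with rfl | rfl | rfl | rfl | rfl
  · exact nLQ h htL hxQ
  · exact nLR h htL h.yR
  · -- `t = c`
    obtain ⟨k1, k2⟩ := key b₁ b₂ fun s hs' => by
      rcases nl s hs' with rfl | rfl | rfl | rfl | rfl | rfl
      · exact Or.inl rfl
      · exact Or.inr (Or.inl rfl)
      · exact absurd hs' hnl
      · exact Or.inr (Or.inr (Or.inl rfl))
      · exact Or.inr (Or.inr (Or.inr (Or.inl rfl)))
      · exact Or.inr (Or.inr (Or.inr (Or.inr rfl)))
    obtain ⟨m1, m2, m3⟩ := core hB hs hb (x := x) (x' := x') (y := y) (l := l) (c := t) (a := a) (e₀ := t)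
      (e₁ := b₁) (e₂ := b₂) h hR (fun s hs' => (nx s).1 hs') (fun s hs' => (nx' s).1 hs')
      (fun s hs' => by
        rcases nl s hs' with h' | h' | h' | h' | h' | h'
        exacts [Or.inl h', Or.inr (Or.inl h'), Or.inr (Or.inr (Or.inr (Or.inl h'))),
          Or.inr (Or.inr (Or.inl h')), Or.inr (Or.inr (Or.inr (Or.inr (Or.inl h')))),
          Or.inr (Or.inr (Or.inr (Or.inr (Or.inr h'))))])
      hxQ htL (common h b1 k1) (common h b2 k2) htx (Or.inl rfl) ⟨b₁, Or.inl rfl, hab1⟩
      (G.ne_of_adj axa) (G.ne_of_adj hla).symm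
    -- the edge `x l`
    obtain ⟨Q₂, L₂, R₂, g, gL, gR⟩ := exnt x l axl
    have g1 : x' ∈ Q₂ := common g axx bl.symm
    have g2 : a ∈ Q₂ := common g axa hla
    have g3 : t ∈ L₂ := by
      obtain ⟨w, hwL, hwx, hw⟩ := nbL hs hb g gL (Or.inr g1)
      rcases (nx' w).1 hw with rfl | rfl | rfl | rfl | rfl
      · exact absurd rfl hwx
      · exact absurd g.yR (nLR g hwL)
      · exact hwL
      · exact absurd (g.only w hwL l g.yR k1.symm).1 hwx
      · exact absurd (g.only w hwL l g.yR k2.symm).1 hwx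
    obtain ⟨w, hwR, hwl, hw⟩ := nbL hs hb (hs V G Q₂ L₂ R₂ x l hb g).2.2.1 gR (Or.inl rfl)
    have hbi : ∀ w, w ∈ R₂ → G.Adj t w → False := fun w hw1 hw2 =>
      (G.ne_of_adj axc) (g.only t g3 w hw1 hw2).1.symm
    rcases nl w hw with rfl | rfl | rfl | rfl | rfl | rfl
    · exact nLR g g.xL hwR
    · exact nRQ g hwR g1
    · exact hnl hw
    · exact nRQ g hwR g2
    · exact hbi _ hwR m2
    · exact hbi _ hwR m3
  · -- `t = b₁`
    obtain ⟨k1, k2⟩ := key c b₂ fun s hs' => by
      rcases nl s hs' with rfl | rfl | rfl | rfl | rfl | rfl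
      · exact Or.inl rfl
      · exact Or.inr (Or.inl rfl)
      · exact Or.inr (Or.inr (Or.inr (Or.inl rfl)))
      · exact Or.inr (Or.inr (Or.inl rfl))
      · exact absurd hs' hnl
      · exact Or.inr (Or.inr (Or.inr (Or.inr rfl)))
    obtain ⟨m1, -, -⟩ := core hB hs hb (x := x) (x' := x') (y := y) (l := l) (c := c) (a := a) (e₀ := t)
      (e₁ := c) (e₂ := b₂) h hR (fun s hs' => (nx s).1 hs')
      (fun s hs' => by
        rcases (nx' s).1 hs' with h' | h' | h' | h' | h'
        exacts [Or.inl h', Or.inr (Or.inl h'), Or.inr (Or.inr (Or.inr (Or.inl h'))),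
          Or.inr (Or.inr (Or.inl h')), Or.inr (Or.inr (Or.inr (Or.inr h')))])
      (fun s hs' => by
        rcases nl s hs' with h' | h' | h' | h' | h' | h'
        exacts [Or.inl h', Or.inr (Or.inl h'), Or.inr (Or.inr (Or.inr (Or.inr (Or.inl h')))),
          Or.inr (Or.inr (Or.inl h')), Or.inr (Or.inr (Or.inr (Or.inl h'))),
          Or.inr (Or.inr (Or.inr (Or.inr (Or.inr h'))))])
      hxQ htL (common h bc k1) (common h b2 k2) htx (Or.inr (Or.inl rfl)) ⟨b₂, Or.inr rfl, hab2⟩
      (G.ne_of_adj axa) (G.ne_of_adj hla).symm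
    rcases (nx t).1 m1.symm with h' | h' | h' | h' | h'
    · exact hy1 h'.symm
    · exact htx h'
    · exact nLR h htL (h' ▸ h.yR)
    · exact f8 h'.symm
    · exact hne1 h'.symm
  · -- `t = b₂`
    obtain ⟨k1, k2⟩ := key c b₁ fun s hs' => by
      rcases nl s hs' with rfl | rfl | rfl | rfl | rfl | rfl
      · exact Or.inl rfl
      · exact Or.inr (Or.inl rfl)
      · exact Or.inr (Or.inr (Or.inr (Or.inl rfl)))
      · exact Or.inr (Or.inr (Or.inl rfl))
      · exact Or.inr (Or.inr (Or.inr (Or.inr rfl)))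
      · exact absurd hs' hnl
    obtain ⟨m1, -, -⟩ := core hB hs hb (x := x) (x' := x') (y := y) (l := l) (c := c) (a := a) (e₀ := t)
      (e₁ := c) (e₂ := b₁) h hR (fun s hs' => (nx s).1 hs')
      (fun s hs' => by
        rcases (nx' s).1 hs' with h' | h' | h' | h' | h'
        exacts [Or.inl h', Or.inr (Or.inl h'), Or.inr (Or.inr (Or.inr (Or.inl h'))),
          Or.inr (Or.inr (Or.inr (Or.inr h'))), Or.inr (Or.inr (Or.inl h'))])
      (fun s hs' => by
        rcases nl s hs' with h' | h' | h' | h' | h' | h'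
        exacts [Or.inl h', Or.inr (Or.inl h'), Or.inr (Or.inr (Or.inr (Or.inr (Or.inl h')))),
          Or.inr (Or.inr (Or.inl h')), Or.inr (Or.inr (Or.inr (Or.inr (Or.inr h')))),
          Or.inr (Or.inr (Or.inr (Or.inl h')))])
      hxQ htL (common h bc k1) (common h b1 k2) htx (Or.inr (Or.inl rfl)) ⟨b₁, Or.inr rfl, hab1⟩
      (G.ne_of_adj axa) (G.ne_of_adj hla).symm
    rcases (nx t).1 m1.symm with h' | h' | h' | h' | h'
    · exact hy2 h'.symm
    · exact htx h'
    · exact nLR h htL (h' ▸ h.yR)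
    · exact f9 h'.symm
    · exact hne2 h'.symm

end Pool.Agent.Helper10.MA
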